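import Mathlib

set_option autoImplicit false

namespace Pool.Agent.Helper8Leonard

open Module

attribute [local instance 100] LieRing.ofAssociativeRing

universe u v w

lemma toEnd_comm {K : Type u} [Field K] {L : Type w} [LieRing L] [LieAlgebra K L]
    {V : Type v} [AddCommGroup V] [Module K V] [LieRingModule L V] [LieModule K L V] (p q : L) :
    LieModule.toEnd K L V p * LieModule.toEnd K L V q -
      LieModule.toEnd K L V q * LieModule.toEnd K L V p = LieModule.toEnd K L V ⁅p, q⁆ := by
  rw [LieHom.map_lie]
  rfl

end Pool.Agent.Helper8Leonard
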