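import Pool.Agent.Helper8_Leonard.Main

set_option autoImplicit false

namespace Pool.Agent.Helper8Leonard

open Module

universe u v

variable {K : Type u} [Field K] {V : Type v} [AddCommGroup V] [Module K V]

/-- The three maps of the counterexample in terms of a basis. -/
structure Maps (u : Basis (Fin 3) K V) (A B C : Module.End K V) : Prop where
  A0 : A (u 0) = u 0
  A1 : A (u 1) = 0
  A2 : A (u 2) = - u 2
  B0 : B (u 0) = (2⁻¹ : K) • u 1
  B1 : B (u 1) = u 0 + u 2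
  B2 : B (u 2) = (2⁻¹ : K) • u 1
  C0 : C (u 0) = (2⁻¹ : K) • u 1
  C1 : C (u 1) = u 0 - u 2
  C2 : C (u 2) = -((2⁻¹ : K) • u 1)

lemma exists_maps (u : Basis (Fin 3) K V) : ∃ A B C : Module.End K V, Maps u A B C := by
  refine ⟨u.constr K ![u 0, 0, - u 2], u.constr K ![(2⁻¹ : K) • u 1, u 0 + u 2, (2⁻¹ : K) • u 1],
    u.constr K ![(2⁻¹ : K) • u 1, u 0 - u 2, -((2⁻¹ : K) • u 1)], ?_⟩
  constructor <;> rw [Basis.constr_basis] <;> rfl

section

variable {u : Basis (Fin 3) K V} {A B C : Module.End K V}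

lemma lin_zero (u : Basis (Fin 3) K V) {a b c : K}
    (h : a • u 0 + b • u 1 + c • u 2 = 0) : a = 0 ∧ b = 0 ∧ c = 0 := by
  have hv := u.linearIndependent
  rw [Fintype.linearIndependent_iff] at hv
  have := hv ![a, b, c] (by rw [Fin.sum_univ_three]; simpa using h)
  exact ⟨by simpa using this 0, by simpa using this 1, by simpa using this 2⟩

variable [CharZero K]

lemma Maps.basisB (h : Maps u A B C) (hV : finrank K V = 3) :
    ∃ v : Basis (Fin 3) K V, v 0 = u 0 + u 1 + u 2 ∧ v 1 = u 0 - u 2 ∧ v 2 = u 0 - u 1 + u 2 ∧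
      B (v 0) = v 0 ∧ B (v 1) = 0 ∧ B (v 2) = - v 2 ∧
      A (v 0) = (1 : K) • v 1 ∧ A (v 1) = (2⁻¹ : K) • v 0 + (2⁻¹ : K) • v 2 ∧
      A (v 2) = (1 : K) • v 1 ∧
      C (v 0) = (1 : K) • v 1 ∧ C (v 1) = (2⁻¹ : K) • v 0 + (-2⁻¹ : K) • v 2 ∧
      C (v 2) = (-1 : K) • v 1 := by
  have h2 : (2 : K) ≠ 0 := two_ne_zero
  have e0 : B (u 0 + u 1 + u 2) = u 0 + u 1 + u 2 := by
    rw [map_add, map_add, h.B0, h.B1, h.B2]; module
  have e1 : B (u 0 - u 2) = 0 := by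
    rw [map_sub, h.B0, h.B2]; module
  have e2 : B (u 0 - u 1 + u 2) = - (u 0 - u 1 + u 2) := by
    rw [map_add, map_sub, h.B0, h.B1, h.B2]; module
  obtain ⟨v, v0, v1, v2⟩ := exists_eigenbasis h2 hV B _ _ _ (by
      intro hh
      have := lin_zero u (a := 1) (b := 1) (c := 1) (by rw [← hh]; module)
      exact one_ne_zero this.1) (by
      intro hh
      have := lin_zero u (a := 1) (b := 0) (c := -1) (by rw [← hh]; module)
      exact one_ne_zero this.1) (by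
      intro hh
      have := lin_zero u (a := 1) (b := -1) (c := 1) (by rw [← hh]; module)
      exact one_ne_zero this.1) e0 e1 e2
  refine ⟨v, v0, v1, v2, ?_, ?_, ?_, ?_, ?_, ?_, ?_, ?_, ?_⟩ <;> simp only [v0, v1, v2] <;>
    first
    | assumption
    | (simp only [map_add, map_sub, h.A0, h.A1, h.A2, h.C0, h.C1, h.C2]; module)

lemma Maps.basisC (h : Maps u A B C) (hV : finrank K V = 3) :
    ∃ v : Basis (Fin 3) K V, v 0 = u 0 + u 1 - u 2 ∧ v 1 = u 0 + u 2 ∧ v 2 = - u 0 + u 1 + u 2 ∧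
      C (v 0) = v 0 ∧ C (v 1) = 0 ∧ C (v 2) = - v 2 ∧
      A (v 0) = (1 : K) • v 1 ∧ A (v 1) = (2⁻¹ : K) • v 0 + (-2⁻¹ : K) • v 2 ∧
      A (v 2) = (-1 : K) • v 1 ∧
      B (v 0) = (1 : K) • v 1 ∧ B (v 1) = (2⁻¹ : K) • v 0 + (2⁻¹ : K) • v 2 ∧
      B (v 2) = (1 : K) • v 1 := by
  have h2 : (2 : K) ≠ 0 := two_ne_zero
  have e0 : C (u 0 + u 1 - u 2) = u 0 + u 1 - u 2 := by
    rw [map_sub, map_add, h.C0, h.C1, h.C2]; module
  have e1 : C (u 0 + u 2) = 0 := by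
    rw [map_add, h.C0, h.C2]; module
  have e2 : C (- u 0 + u 1 + u 2) = - (- u 0 + u 1 + u 2) := by
    rw [map_add, map_add, map_neg, h.C0, h.C1, h.C2]; module
  obtain ⟨v, v0, v1, v2⟩ := exists_eigenbasis h2 hV C _ _ _ (by
      intro hh
      have := lin_zero u (a := 1) (b := 1) (c := -1) (by rw [← hh]; module)
      exact one_ne_zero this.1) (by
      intro hh
      have := lin_zero u (a := 1) (b := 0) (c := 1) (by rw [← hh]; module)
      exact one_ne_zero this.1) (by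
      intro hh
      have := lin_zero u (a := -1) (b := 1) (c := 1) (by rw [← hh]; module)
      exact one_ne_zero this.2.1) e0 e1 e2
  refine ⟨v, v0, v1, v2, ?_, ?_, ?_, ?_, ?_, ?_, ?_, ?_, ?_⟩ <;> simp only [v0, v1, v2] <;>
    first
    | assumption
    | (simp only [map_add, map_sub, map_neg, h.A0, h.A1, h.A2, h.B0, h.B1, h.B2]; module)

lemma Maps.leonardTriple (h : Maps u A B C) (hV : finrank K V = 3) : IsLeonardTriple 2 A B C := by
  have h2 : (2⁻¹ : K) ≠ 0 := inv_ne_zero two_ne_zero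
  have h2' : (-2⁻¹ : K) ≠ 0 := neg_ne_zero.mpr h2
  have h1 : (1 : K) ≠ 0 := one_ne_zero
  have h1' : (-1 : K) ≠ 0 := neg_ne_zero.mpr h1
  refine ⟨⟨u, isDiag_of u A h.A0 h.A1 h.A2,
    isIrredTridiag_of u B 2⁻¹ 1 1 2⁻¹ h2 h1 h1 h2 h.B0 (by rw [h.B1]; module) h.B2,
    isIrredTridiag_of u C 2⁻¹ 1 (-1) (-2⁻¹) h2 h1 h1' h2' h.C0 (by rw [h.C1]; module)
      (by rw [h.C2]; module)⟩, ?_, ?_⟩
  · obtain ⟨v, -, -, -, b0, b1, b2, a0, a1, a2, c0, c1, c2⟩ := h.basisB hV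
    exact ⟨v, isDiag_of v B b0 b1 b2, isIrredTridiag_of v A _ _ _ _ h1 h2 h2 h1 a0 a1 a2,
      isIrredTridiag_of v C _ _ _ _ h1 h2 h2' h1' c0 c1 c2⟩
  · obtain ⟨v, -, -, -, b0, b1, b2, a0, a1, a2, c0, c1, c2⟩ := h.basisC hV
    exact ⟨v, isDiag_of v C b0 b1 b2, isIrredTridiag_of v A _ _ _ _ h1 h2 h2' h1' a0 a1 a2,
      isIrredTridiag_of v B _ _ _ _ h1 h2 h2 h1 c0 c1 c2⟩

omit [CharZero K] in
/-- Linear combinations of `1, P, Q, P * Q`. -/
lemma mem_comb {P Q T : Module.End K V}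
    (h : T ∈ Submodule.span K ({1, P, Q, P * Q} : Set (Module.End K V))) :
    ∃ a b c e : K, T = a • 1 + b • P + c • Q + e • (P * Q) := by
  rw [Submodule.mem_span_insert] at h
  obtain ⟨a, T1, h1, rfl⟩ := h
  rw [Submodule.mem_span_insert] at h1
  obtain ⟨b, T2, h2, rfl⟩ := h1
  rw [Submodule.mem_span_insert] at h2
  obtain ⟨c, T3, h3, rfl⟩ := h2
  rw [Submodule.mem_span_singleton] at h3
  obtain ⟨e, rfl⟩ := h3
  exact ⟨a, b, c, e, by abel⟩

omit [CharZero K] in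
lemma ext3 (b : Basis (Fin 3) K V) (σ : V →ₗ[K] K) (T : Module.End K V) (c : K)
    (h0 : σ (T (b 0)) = c * σ (b 0)) (h1 : σ (T (b 1)) = c * σ (b 1))
    (h2 : σ (T (b 2)) = c * σ (b 2)) (w : V) : σ (T w) = c * σ w := by
  have : σ ∘ₗ T = c • σ := by
    refine b.ext fun i => ?_
    rw [LinearMap.comp_apply, LinearMap.smul_apply, smul_eq_mul]
    fin_cases i
    · exact h0
    · exact h1
    · exact h2
  have := congrArg (fun g : V →ₗ[K] K => g w) this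
  simpa using this

lemma contra (h : Maps u A B C) (hV : finrank K V = 3) (X Y Z : Module.End K V)
    (b : Basis (Fin 3) K V)
    (X0 : X (b 0) = (-2 : K) • b 0) (X1 : X (b 1) = (4 : K) • b 0)
    (X2 : X (b 2) = (4 : K) • b 1 + (2 : K) • b 2)
    (Y0 : Y (b 0) = (-2 : K) • b 0 + (-2 : K) • b 1) (Y1 : Y (b 1) = (-2 : K) • b 2)
    (Y2 : Y (b 2) = (2 : K) • b 2)
    (Z0 : Z (b 0) = (2 : K) • b 0) (Z1 : Z (b 1) = 0) (Z2 : Z (b 2) = (-2 : K) • b 2)
    (hA : A ∈ Submodule.span K ({1, X, Y, X * Y} : Set (Module.End K V)))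
    (hB : B ∈ Submodule.span K ({1, Y, Z, Y * Z} : Set (Module.End K V)))
    (hC : C ∈ Submodule.span K ({1, Z, X, Z * X} : Set (Module.End K V))) : False := by
  have h2 : (2 : K) ≠ 0 := two_ne_zero
  obtain ⟨a1, a2, a3, a4, hA⟩ := mem_comb hA
  obtain ⟨b1, b2, b3, b4, hB⟩ := mem_comb hB
  obtain ⟨c1, c2, c3, c4, hC⟩ := mem_comb hC
  -- the three flags
  set sx : V →ₗ[K] K := b.constr K ![(1 : K), 0, 0] with hsx
  set sy : V →ₗ[K] K := b.constr K ![(0 : K), 0, 1] with hsy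
  set sz : V →ₗ[K] K := b.constr K ![(1 : K), -2, 2] with hsz
  have sx0 : sx (b 0) = 1 := by rw [hsx, Basis.constr_basis]; rfl
  have sx1 : sx (b 1) = 0 := by rw [hsx, Basis.constr_basis]; rfl
  have sx2 : sx (b 2) = 0 := by rw [hsx, Basis.constr_basis]; rfl
  have sy0 : sy (b 0) = 0 := by rw [hsy, Basis.constr_basis]; rfl
  have sy1 : sy (b 1) = 0 := by rw [hsy, Basis.constr_basis]; rfl
  have sy2 : sy (b 2) = 1 := by rw [hsy, Basis.constr_basis]; rfl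
  have sz0 : sz (b 0) = 1 := by rw [hsz, Basis.constr_basis]; rfl
  have sz1 : sz (b 1) = -2 := by rw [hsz, Basis.constr_basis]; rfl
  have sz2 : sz (b 2) = 2 := by rw [hsz, Basis.constr_basis]; rfl
  have sxY : ∀ w, sx (Y w) = -2 * sx w := by
    refine ext3 b sx Y _ ?_ ?_ ?_ <;>
    simp only [Y0, Y1, Y2, map_add, map_smul, smul_eq_mul, sx0, sx1, sx2] <;> ring
  have sxZ : ∀ w, sx (Z w) = 2 * sx w := by
    refine ext3 b sx Z _ ?_ ?_ ?_ <;>
    simp only [Z0, Z1, Z2, map_add, map_smul, smul_eq_mul, map_zero, sx0, sx1, sx2] <;> ring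
  have syZ : ∀ w, sy (Z w) = -2 * sy w := by
    refine ext3 b sy Z _ ?_ ?_ ?_ <;>
    simp only [Z0, Z1, Z2, map_add, map_smul, smul_eq_mul, map_zero, sy0, sy1, sy2] <;> ring
  have syX : ∀ w, sy (X w) = 2 * sy w := by
    refine ext3 b sy X _ ?_ ?_ ?_ <;>
    simp only [X0, X1, X2, map_add, map_smul, smul_eq_mul, map_zero, sy0, sy1, sy2] <;> ring
  have szX : ∀ w, sz (X w) = -2 * sz w := by
    refine ext3 b sz X _ ?_ ?_ ?_ <;>
    simp only [X0, X1, X2, map_add, map_smul, smul_eq_mul, map_zero, sz0, sz1, sz2] <;> ring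
  have szY : ∀ w, sz (Y w) = 2 * sz w := by
    refine ext3 b sz Y _ ?_ ?_ ?_ <;>
    simp only [Y0, Y1, Y2, map_add, map_smul, smul_eq_mul, map_zero, sz0, sz1, sz2] <;> ring
  have sxne : sx ≠ 0 := by
    intro hh
    rw [hh] at sx0
    exact one_ne_zero sx0.symm
  have syne : sy ≠ 0 := by
    intro hh
    rw [hh] at sy2
    exact one_ne_zero sy2.symm
  have szne : sz ≠ 0 := by
    intro hh
    rw [hh] at sz0
    exact one_ne_zero sz0.symm
  obtain ⟨px, hpx⟩ : ∃ px : V, px = b 2 := ⟨_, rfl⟩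
  obtain ⟨py, hpy⟩ : ∃ py : V, py = b 0 := ⟨_, rfl⟩
  obtain ⟨pz, hpz⟩ : ∃ pz : V, pz = (2 : K) • b 0 + (2 : K) • b 1 + b 2 := ⟨_, rfl⟩
  have Yx : Y px = (2 : K) • px := by rw [hpx, Y2]
  have Zx : Z px = (-2 : K) • px := by rw [hpx, Z2]
  have Zy : Z py = (2 : K) • py := by rw [hpy, Z0]
  have Xy : X py = (-2 : K) • py := by rw [hpy, X0]
  have Xz : X pz = (2 : K) • pz := by
    rw [hpz]; simp only [map_add, map_smul, X0, X1, X2]; module
  have Yz : Y pz = (-2 : K) • pz := by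
    rw [hpz]; simp only [map_add, map_smul, Y0, Y1, Y2]; module
  have pxne : px ≠ 0 := by
    intro hh
    have := lin_zero b (a := 0) (b := 0) (c := 1) (by rw [hpx] at hh; rw [hh]; module)
    exact one_ne_zero this.2.2
  have pyne : py ≠ 0 := by
    intro hh
    have := lin_zero b (a := 1) (b := 0) (c := 0) (by rw [hpy] at hh; rw [hh]; module)
    exact one_ne_zero this.1
  have pzne : pz ≠ 0 := by
    intro hh
    have := lin_zero b (a := 2) (b := 2) (c := 1) (by rw [hpz] at hh; rw [← hh]; module)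
    exact one_ne_zero this.2.2
  -- values
  have vxx : sx px = 0 := by rw [hpx, sx2]
  have vyy : sy py = 0 := by rw [hpy, sy0]
  have vzz : sz pz = 0 := by
    rw [hpz]; simp only [map_add, map_smul, sz0, sz1, sz2, smul_eq_mul]; ring
  have vzx : sz px = 2 := by rw [hpx, sz2]
  have vxz : sx pz = 2 := by
    rw [hpz]; simp only [map_add, map_smul, sx0, sx1, sx2, smul_eq_mul]; ring
  have vxy : sx py = 1 := by rw [hpy, sx0]
  have vyx : sy px = 1 := by rw [hpx, sy2]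
  have vyz : sy pz = 1 := by
    rw [hpz]; simp only [map_add, map_smul, sy0, sy1, sy2, smul_eq_mul]; ring
  have vzy : sz py = 1 := by rw [hpy, sz0]
  -- A
  have Aapp : ∀ w, A w = a1 • w + a2 • X w + a3 • Y w + a4 • X (Y w) := by
    intro w; rw [hA]; rfl
  have Bapp : ∀ w, B w = b1 • w + b2 • Y w + b3 • Z w + b4 • Y (Z w) := by
    intro w; rw [hB]; rfl
  have Capp : ∀ w, C w = c1 • w + c2 • Z w + c3 • X w + c4 • Z (X w) := by
    intro w; rw [hC]; rfl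
  have Apz : A pz = (a1 + 2 * a2 - 2 * a3 - 4 * a4) • pz := by
    rw [Aapp, Yz, map_smul, Xz]; module
  have Bpx : B px = (b1 + 2 * b2 - 2 * b3 - 4 * b4) • px := by
    rw [Bapp, Zx, map_smul, Yx]; module
  have Cpy : C py = (c1 + 2 * c2 - 2 * c3 - 4 * c4) • py := by
    rw [Capp, Xy, map_smul, Zy]; module
  have szA : ∀ w, sz (A w) = (a1 - 2 * a2 + 2 * a3 - 4 * a4) * sz w := by
    intro w
    rw [Aapp]; simp only [map_add, map_smul, smul_eq_mul, szX, szY]; ring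
  have sxB : ∀ w, sx (B w) = (b1 - 2 * b2 + 2 * b3 - 4 * b4) * sx w := by
    intro w
    rw [Bapp]; simp only [map_add, map_smul, smul_eq_mul, sxY, sxZ]; ring
  have syC : ∀ w, sy (C w) = (c1 - 2 * c2 + 2 * c3 - 4 * c4) * sy w := by
    intro w
    rw [Capp]; simp only [map_add, map_smul, smul_eq_mul, syX, syZ]; ring
  have szBpz : sz (B pz) = 0 := by
    have e1 : sz (Z pz) = 0 := by
      rw [hpz]; simp only [map_add, map_smul, Z0, Z1, Z2, map_zero, smul_eq_mul, sz0, sz1, sz2]; ring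
    rw [Bapp]; simp only [map_add, map_smul, smul_eq_mul, szY, e1, vzz]; ring
  have sxApx : sx (A px) = 0 := by
    have e1 : sx (X px) = 0 := by
      rw [hpx]; simp only [map_add, map_smul, X2, smul_eq_mul, sx0, sx1, sx2]; ring
    rw [Aapp, Yx]; simp only [map_add, map_smul, smul_eq_mul, e1, vxx]; ring
  have syApy : sy (A py) = 0 := by
    have e1 : sy (Y py) = 0 := by
      rw [hpy]; simp only [map_add, map_smul, Y0, smul_eq_mul, sy0, sy1, sy2]; ring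
    rw [Aapp]; simp only [map_add, map_smul, smul_eq_mul, syX, e1, vyy]; ring
  have hi2 : (2⁻¹ : K) ≠ 0 := inv_ne_zero two_ne_zero
  have hi2' : (-2⁻¹ : K) ≠ 0 := neg_ne_zero.mpr hi2
  have h1 : (1 : K) ≠ 0 := one_ne_zero
  have h1' : (-1 : K) ≠ 0 := neg_ne_zero.mpr h1
  have kA := key u h2 A B h.A0 h.A1 h.A2 2⁻¹ 1 1 2⁻¹ hi2 h1 h1 hi2 h.B0 (by rw [h.B1]; module)
    h.B2 pz sz _ _ Apz szA pzne szne vzz szBpz
  obtain ⟨v, v0, v1, v2, q0, q1, q2, r0, r1, r2, -, -, -⟩ := h.basisB hV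
  have kB := key v h2 B A q0 q1 q2 _ _ _ _ h1 hi2 hi2 h1 r0 r1 r2 px sx _ _ Bpx sxB pxne sxne vxx
    sxApx
  obtain ⟨w, w0, w1, w2, q0, q1, q2, r0, r1, r2, -, -, -⟩ := h.basisC hV
  have kC := key w h2 C A q0 q1 q2 _ _ _ _ h1 hi2 hi2' h1' r0 r1 r2 py sy _ _ Cpy syC pyne syne vyy
    syApy
  rw [v0, v1, v2] at kB
  rw [w0, w1, w2] at kC
  rcases kA with ⟨a, ha, ea, ea1, ea2⟩ | ⟨a, ha, ea, ea1, ea2⟩ <;>
  rcases kB with ⟨b', hb, eb, eb1, eb2⟩ | ⟨b', hb, eb, eb1, eb2⟩ <;>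
  rcases kC with ⟨c, hc, ec, ec1, ec2⟩ | ⟨c, hc, ec, ec1, ec2⟩ <;>
  · simp only [ea, eb, ec, map_add, map_sub, map_neg, map_smul, smul_eq_mul] at eb1 eb2 ec1 ec2 vzx vxy vyz vxz vyx vzy
    clear * - h2 ea1 ea2 eb1 eb2 ec1 ec2 vzx vxy vyz vxz vyx vzy
    grind

end

end Pool.Agent.Helper8Leonard
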