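import Mathlib

set_option autoImplicit false

/-!
Definitions for the problem on Leonard triples and the equitable basis of `sl₂`.
-/

namespace Pool.Agent.Helper8Leonard

open Module

universe u v

/-- A square matrix is irreducible tridiagonal if all entries off the main, sub- and
superdiagonals are zero and every sub- and superdiagonal entry is nonzero. -/
def IsIrredTridiag {K : Type u} [Field K] {d : ℕ} (M : Matrix (Fin (d + 1)) (Fin (d + 1)) K) :
    Prop :=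
  (∀ i j : Fin (d + 1), ((i : ℕ) + 1 < (j : ℕ) ∨ (j : ℕ) + 1 < (i : ℕ)) → M i j = 0) ∧
  (∀ i j : Fin (d + 1), ((i : ℕ) + 1 = (j : ℕ) ∨ (j : ℕ) + 1 = (i : ℕ)) → M i j ≠ 0)

variable {K : Type u} [Field K] {V : Type v} [AddCommGroup V] [Module K V]

/-- `A, B` is a Leonard pair on `V` (of dimension `d + 1`). -/
def IsLeonardPair (d : ℕ) (A B : Module.End K V) : Prop :=
  (∃ v : Basis (Fin (d + 1)) K V,
    (LinearMap.toMatrix v v A).IsDiag ∧ IsIrredTridiag (LinearMap.toMatrix v v B)) ∧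
  (∃ v : Basis (Fin (d + 1)) K V,
    (LinearMap.toMatrix v v B).IsDiag ∧ IsIrredTridiag (LinearMap.toMatrix v v A))

/-- The condition `β = 2` for a Leonard pair `A, B`: in every basis `v` as in part (i) of the
definition, the diagonal entries `θ₀, …, θ_d` of `A` satisfy
`θ_{i-2} - θ_{i+1} = 3 (θ_{i-1} - θ_i)` for `2 ≤ i ≤ d - 1`. -/
def BetaEqTwo (d : ℕ) (A B : Module.End K V) : Prop :=
  ∀ v : Basis (Fin (d + 1)) K V,
    (LinearMap.toMatrix v v A).IsDiag → IsIrredTridiag (LinearMap.toMatrix v v B) →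
    ∀ i : ℕ, 2 ≤ i → ∀ hi : i + 1 ≤ d,
      LinearMap.toMatrix v v A ⟨i - 2, by omega⟩ ⟨i - 2, by omega⟩
        - LinearMap.toMatrix v v A ⟨i + 1, by omega⟩ ⟨i + 1, by omega⟩
      = 3 * (LinearMap.toMatrix v v A ⟨i - 1, by omega⟩ ⟨i - 1, by omega⟩
        - LinearMap.toMatrix v v A ⟨i, by omega⟩ ⟨i, by omega⟩)

/-- `A, B, C` is a Leonard triple on `V` (of dimension `d + 1`). -/
def IsLeonardTriple (d : ℕ) (A B C : Module.End K V) : Prop :=
  (∃ v : Basis (Fin (d + 1)) K V, (LinearMap.toMatrix v v A).IsDiag ∧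
    IsIrredTridiag (LinearMap.toMatrix v v B) ∧ IsIrredTridiag (LinearMap.toMatrix v v C)) ∧
  (∃ v : Basis (Fin (d + 1)) K V, (LinearMap.toMatrix v v B).IsDiag ∧
    IsIrredTridiag (LinearMap.toMatrix v v A) ∧ IsIrredTridiag (LinearMap.toMatrix v v C)) ∧
  (∃ v : Basis (Fin (d + 1)) K V, (LinearMap.toMatrix v v C).IsDiag ∧
    IsIrredTridiag (LinearMap.toMatrix v v A) ∧ IsIrredTridiag (LinearMap.toMatrix v v B))

/-- The Lie algebra `sl₂(K)`. -/
abbrev SL2 (K : Type u) [Field K] : Type u := LieAlgebra.SpecialLinear.sl (Fin 2) K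

/-- `x, y, z` is an equitable basis of `sl₂(K)`: a basis with `[x,y] = 2x+2y`, `[y,z] = 2y+2z`
and `[z,x] = 2z+2x`. -/
def IsEquitable (x y z : SL2 K) : Prop :=
  (∃ b : Basis (Fin 3) K (SL2 K), b 0 = x ∧ b 1 = y ∧ b 2 = z) ∧
  ⁅x, y⁆ = (2 : K) • x + (2 : K) • y ∧ ⁅y, z⁆ = (2 : K) • y + (2 : K) • z ∧
  ⁅z, x⁆ = (2 : K) • z + (2 : K) • x

end Pool.Agent.Helper8Leonard
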