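import Pool.Agent.Helper8_Leonard.Rep
import Pool.Agent.Helper8_Leonard.Defs

set_option autoImplicit false

namespace Pool.Agent.Helper8Leonard

open Module

universe u v

variable {K : Type u} [Field K] {V : Type v} [AddCommGroup V] [Module K V]

lemma isDiag_of (v : Basis (Fin 3) K V) (T : Module.End K V) (h0 : T (v 0) = v 0)
    (h1 : T (v 1) = 0) (h2 : T (v 2) = - v 2) :
    (LinearMap.toMatrix v v T).IsDiag := by
  intro i j hij
  rw [LinearMap.toMatrix_apply]
  fin_cases i <;> fin_cases j <;> simp_all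

lemma isIrredTridiag_of (v : Basis (Fin 3) K V) (T : Module.End K V) (c0 c1 c2 c3 : K)
    (n0 : c0 ≠ 0) (n1 : c1 ≠ 0) (n2 : c2 ≠ 0) (n3 : c3 ≠ 0)
    (h0 : T (v 0) = c0 • v 1)
    (h1 : T (v 1) = c1 • v 0 + c2 • v 2) (h2 : T (v 2) = c3 • v 1) :
    IsIrredTridiag (d := 2) (LinearMap.toMatrix v v T) := by
  constructor
  · intro i j hij
    rw [LinearMap.toMatrix_apply]
    fin_cases i <;> fin_cases j <;> simp_all
  · intro i j hij
    rw [LinearMap.toMatrix_apply]
    fin_cases i <;> fin_cases j <;> simp_all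

/-- The key lemma on flags. -/
lemma key (v : Basis (Fin 3) K V) (hK : (2 : K) ≠ 0) (T M : Module.End K V) (h0 : T (v 0) = v 0)
    (h1 : T (v 1) = 0) (h2 : T (v 2) = - v 2) (c0 c1 c2 c3 : K)
    (n0 : c0 ≠ 0) (n1 : c1 ≠ 0) (n2 : c2 ≠ 0) (n3 : c3 ≠ 0)
    (m0 : M (v 0) = c0 • v 1)
    (m1 : M (v 1) = c1 • v 0 + c2 • v 2) (m2 : M (v 2) = c3 • v 1)
    (p : V) (σ : V →ₗ[K] K) (lam mu : K) (hp : T p = lam • p) (hσ : ∀ w, σ (T w) = mu * σ w)
    (hp0 : p ≠ 0) (hσ0 : σ ≠ 0) (hσp : σ p = 0) (hσM : σ (M p) = 0) :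
    (∃ a : K, a ≠ 0 ∧ p = a • v 0 ∧ σ (v 0) = 0 ∧ σ (v 1) = 0) ∨
    (∃ a : K, a ≠ 0 ∧ p = a • v 2 ∧ σ (v 2) = 0 ∧ σ (v 1) = 0) := by
  obtain ⟨x, hx⟩ : ∃ x : Fin 3 → K, p = x 0 • v 0 + x 1 • v 1 + x 2 • v 2 := by
    refine ⟨v.repr p, ?_⟩
    conv_lhs => rw [← v.sum_repr p]
    rw [Fin.sum_univ_three]
  have hT : T p = x 0 • v 0 - x 2 • v 2 := by
    rw [hx, map_add, map_add, map_smul, map_smul, map_smul, h0, h1, h2]; module
  have hlin : ∀ a b c : K, a • v 0 + b • v 1 + c • v 2 = 0 → a = 0 ∧ b = 0 ∧ c = 0 := by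
    intro a b c h
    have hv := v.linearIndependent
    rw [Fintype.linearIndependent_iff] at hv
    have := hv ![a, b, c] (by rw [Fin.sum_univ_three]; simpa using h)
    exact ⟨by simpa using this 0, by simpa using this 1, by simpa using this 2⟩
  have hrel := hlin (x 0 - lam * x 0) (- (lam * x 1)) (- x 2 - lam * x 2) (by
    have : T p - lam • p = 0 := by rw [hp, sub_self]
    rw [hT, hx] at this
    rw [← this]; module)
  obtain ⟨r0, r1, r2⟩ := hrel
  have s0 : σ (v 0) = mu * σ (v 0) := by rw [← hσ, h0]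
  have s1 : 0 = mu * σ (v 1) := by rw [← hσ, h1, map_zero]
  have s2 : - σ (v 2) = mu * σ (v 2) := by rw [← hσ, h2, map_neg]
  have hσne : ¬ (σ (v 0) = 0 ∧ σ (v 1) = 0 ∧ σ (v 2) = 0) := by
    rintro ⟨a, b, c⟩
    apply hσ0
    apply v.ext
    intro i
    fin_cases i
    · simpa using a
    · simpa using b
    · simpa using c
  have hxne : ¬ (x 0 = 0 ∧ x 1 = 0 ∧ x 2 = 0) := by
    rintro ⟨a, b, c⟩
    apply hp0
    rw [hx, a, b, c]; simp
  have e0 : x 0 * (1 - lam) = 0 := by linear_combination r0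
  have e1 : x 1 * lam = 0 := by linear_combination - r1
  have e2 : x 2 * (1 + lam) = 0 := by linear_combination - r2
  have t0 : σ (v 0) * (1 - mu) = 0 := by linear_combination s0
  have t1 : σ (v 1) * mu = 0 := by linear_combination - s1
  have t2 : σ (v 2) * (1 + mu) = 0 := by linear_combination - s2
  have hσp' : x 0 * σ (v 0) + x 1 * σ (v 1) + x 2 * σ (v 2) = 0 := by
    rw [hx, map_add, map_add, map_smul, map_smul, map_smul] at hσp
    simpa using hσp
  have hσM' : x 0 * (c0 * σ (v 1)) + x 1 * (c1 * σ (v 0) + c2 * σ (v 2)) +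
      x 2 * (c3 * σ (v 1)) = 0 := by
    rw [hx] at hσM
    simp only [map_add, map_smul, m0, m1, m2, smul_eq_mul] at hσM
    linear_combination hσM
  rcases eq_or_ne (x 0) 0 with hx0 | hx0
  · rcases eq_or_ne (x 1) 0 with hx1 | hx1
    · -- x 2 ≠ 0
      have hx2 : x 2 ≠ 0 := fun h => hxne ⟨hx0, hx1, h⟩
      right
      refine ⟨x 2, hx2, by rw [hx, hx0, hx1]; simp, ?_, ?_⟩
      · rw [hx0, hx1] at hσp'
        simpa [hx2] using hσp'
      · rw [hx0, hx1] at hσM'
        simpa [hx2, n3] using hσM'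
    · exfalso
      have hl : lam = 0 := (mul_eq_zero.mp e1).resolve_left hx1
      have hx2 : x 2 = 0 := by
        rw [hl] at e2; simpa using e2
      rw [hx0, hx2] at hσp' hσM'
      have hs1 : σ (v 1) = 0 := by simpa [hx1] using hσp'
      have hs : c1 * σ (v 0) + c2 * σ (v 2) = 0 := by simpa [hx1] using hσM'
      rcases eq_or_ne (σ (v 0)) 0 with hs0 | hs0
      · rw [hs0] at hs
        have : σ (v 2) = 0 := by simpa [n2] using hs
        exact hσne ⟨hs0, hs1, this⟩
      · have hm : 1 - mu = 0 := (mul_eq_zero.mp t0).resolve_left hs0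
        have hm' : 1 + mu = 2 := by linear_combination - hm
        rw [hm'] at t2
        have hs2 : σ (v 2) = 0 := (mul_eq_zero.mp t2).resolve_right hK
        rw [hs2] at hs
        have : σ (v 0) = 0 := by simpa [n1] using hs
        exact hs0 this
  · have hl : 1 - lam = 0 := (mul_eq_zero.mp e0).resolve_left hx0
    have hl1 : lam = 1 := by linear_combination - hl
    have hx1 : x 1 = 0 := by rw [hl1] at e1; simpa using e1
    have hx2 : x 2 = 0 := by
      rw [hl1] at e2
      have : (1 : K) + 1 ≠ 0 := by norm_num; exact hK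
      exact (mul_eq_zero.mp e2).resolve_right this
    left
    refine ⟨x 0, hx0, by rw [hx, hx1, hx2]; simp, ?_, ?_⟩
    · rw [hx1, hx2] at hσp'
      simpa [hx0] using hσp'
    · rw [hx1, hx2] at hσM'
      simpa [hx0, n0] using hσM'

/-- Eigenvectors for `1, 0, -1` form a basis. -/
lemma exists_eigenbasis (h2 : (2 : K) ≠ 0) (hV : finrank K V = 3) (T : Module.End K V)
    (w0 w1 w2 : V) (n0 : w0 ≠ 0) (n1 : w1 ≠ 0) (n2 : w2 ≠ 0)
    (h0 : T w0 = w0) (h1 : T w1 = 0) (h3 : T w2 = - w2) :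
    ∃ v : Basis (Fin 3) K V, v 0 = w0 ∧ v 1 = w1 ∧ v 2 = w2 := by
  have hli : LinearIndependent K ![w0, w1, w2] := by
    rw [Fintype.linearIndependent_iff]
    intro g hg
    rw [Fin.sum_univ_three] at hg
    simp only [Matrix.cons_val_zero, Matrix.cons_val_one, Matrix.cons_val_two, Matrix.head_cons,
      Matrix.tail_cons, Matrix.cons_val] at hg
    have hg1 : g 0 • w0 - g 2 • w2 = 0 := by
      have := congrArg T hg
      rw [map_add, map_add, map_smul, map_smul, map_smul, h0, h1, h3, map_zero] at this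
      rw [← this]; module
    have hg2 : g 0 • w0 + g 2 • w2 = 0 := by
      have := congrArg T hg1
      rw [map_sub, map_smul, map_smul, h0, h3, map_zero] at this
      rw [← this]; module
    have e0 : (2 * g 0) • w0 = 0 := by
      have : (g 0 • w0 - g 2 • w2) + (g 0 • w0 + g 2 • w2) = 0 := by rw [hg1, hg2, add_zero]
      rw [← this]; module
    have e2 : (2 * g 2) • w2 = 0 := by
      have : (g 0 • w0 + g 2 • w2) - (g 0 • w0 - g 2 • w2) = 0 := by rw [hg1, hg2, sub_zero]
      rw [← this]; module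
    have z0 : g 0 = 0 := by
      have := (smul_eq_zero.mp e0).resolve_right n0
      exact (mul_eq_zero.mp this).resolve_left h2
    have z2 : g 2 = 0 := by
      have := (smul_eq_zero.mp e2).resolve_right n2
      exact (mul_eq_zero.mp this).resolve_left h2
    have z1 : g 1 = 0 := by
      rw [z0, z2] at hg
      have : g 1 • w1 = 0 := by simpa using hg
      exact (smul_eq_zero.mp this).resolve_right n1
    intro i
    fin_cases i
    · exact z0
    · exact z1
    · exact z2
  refine ⟨basisOfLinearIndependentOfCardEqFinrank hli (by rw [hV]; rfl), ?_, ?_, ?_⟩ <;>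
  · rw [coe_basisOfLinearIndependentOfCardEqFinrank]; rfl

end Pool.Agent.Helper8Leonard
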