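import Pool.Agent.Helper8_Leonard.Core
import Pool.Agent.Helper8_Leonard.Comm

set_option autoImplicit false

/-!
A Leonard triple of diameter two which is not of the equitable form.
-/

namespace Pool.Agent.Helper8Leonard

open Module

universe u v

/-- Every three-dimensional vector space over an algebraically closed field of characteristic
zero carries a Leonard triple `A, B, C`, with `A, B` a Leonard pair satisfying `β = 2`, such that
for no irreducible `sl₂`-module structure and no equitable basis `x, y, z` do the three maps act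
as linear combinations of `1, x, y, xy`, of `1, y, z, yz` and of `1, z, x, zx`. -/
theorem exists_counterexample {K : Type u} [Field K] [IsAlgClosed K] [CharZero K]
    {V : Type v} [AddCommGroup V] [Module K V] (hV : finrank K V = 3) :
    ∃ A B C : Module.End K V,
      IsLeonardPair 2 A B ∧ BetaEqTwo 2 A B ∧ IsLeonardTriple 2 A B C ∧
      ∀ (_ : LieRingModule (SL2 K) V) (_ : LieModule K (SL2 K) V),
        LieModule.IsIrreducible K (SL2 K) V →
        ∀ x y z : SL2 K, IsEquitable x y z →
          ¬ (A ∈ Submodule.span K ({1, LieModule.toEnd K (SL2 K) V x, LieModule.toEnd K (SL2 K) V y,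
                LieModule.toEnd K (SL2 K) V x * LieModule.toEnd K (SL2 K) V y} :
                  Set (Module.End K V)) ∧
             B ∈ Submodule.span K ({1, LieModule.toEnd K (SL2 K) V y, LieModule.toEnd K (SL2 K) V z,
                LieModule.toEnd K (SL2 K) V y * LieModule.toEnd K (SL2 K) V z} :
                  Set (Module.End K V)) ∧
             C ∈ Submodule.span K ({1, LieModule.toEnd K (SL2 K) V z, LieModule.toEnd K (SL2 K) V x,
                LieModule.toEnd K (SL2 K) V z * LieModule.toEnd K (SL2 K) V x} :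
                  Set (Module.End K V))) := by
  have hfin : FiniteDimensional K V := FiniteDimensional.of_finrank_pos (by omega)
  obtain ⟨A, B, C, h⟩ := exists_maps (finBasisOfFinrankEq K V hV)
  have hT := h.leonardTriple hV
  refine ⟨A, B, C, ⟨?_, ?_⟩, ?_, hT, ?_⟩
  · obtain ⟨⟨v, h1, h2, -⟩, -, -⟩ := hT
    exact ⟨v, h1, h2⟩
  · obtain ⟨-, ⟨v, h1, h2, -⟩, -⟩ := hT
    exact ⟨v, h1, h2⟩
  · intro v _ _ i hi hi'
    omega
  · intro i1 i2 hirr x y z ⟨⟨b, hb0, hb1, hb2⟩, hxy, hyz, hzx⟩ ⟨hA, hB, hC⟩
    set X := LieModule.toEnd K (SL2 K) V x with hX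
    set Y := LieModule.toEnd K (SL2 K) V y with hY
    set Z := LieModule.toEnd K (SL2 K) V z with hZ
    have hXY : X * Y - Y * X = (2 : K) • X + (2 : K) • Y := by
      rw [hX, hY, toEnd_comm, hxy, map_add, map_smul, map_smul]
    have hYZ : Y * Z - Z * Y = (2 : K) • Y + (2 : K) • Z := by
      rw [hY, hZ, toEnd_comm, hyz, map_add, map_smul, map_smul]
    have hZX : Z * X - X * Z = (2 : K) • Z + (2 : K) • X := by
      rw [hZ, hX, toEnd_comm, hzx, map_add, map_smul, map_smul]
    have hsub : ∀ W : Submodule K V, (∀ w ∈ W, X w ∈ W) → (∀ w ∈ W, Y w ∈ W) →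
        (∀ w ∈ W, Z w ∈ W) → W = ⊥ ∨ W = ⊤ := by
      intro W h1 h2 h3
      have hlie : ∀ (p : SL2 K) (w : V), w ∈ W → ⁅p, w⁆ ∈ W := by
        intro p w hw
        have hp : p = b.repr p 0 • x + b.repr p 1 • y + b.repr p 2 • z := by
          conv_lhs => rw [← b.sum_repr p]
          rw [Fin.sum_univ_three, hb0, hb1, hb2]
        rw [hp, add_lie, add_lie, smul_lie, smul_lie, smul_lie]
        exact W.add_mem (W.add_mem (W.smul_mem _ (h1 w hw)) (W.smul_mem _ (h2 w hw)))
          (W.smul_mem _ (h3 w hw))
      let N : LieSubmodule K (SL2 K) V := { W with lie_mem := fun {p w} hw => hlie p w hw }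
      rcases hirr.eq_bot_or_eq_top N with hN | hN
      · left
        have : (N : Submodule K V) = ⊥ := by rw [hN]; rfl
        exact this
      · right
        have : (N : Submodule K V) = ⊤ := by rw [hN]; rfl
        exact this
    obtain ⟨b', X0, X1, X2, Y0, Y1, Y2, Z0, Z1, Z2⟩ := exists_basis hV X Y Z hXY hYZ hZX hsub
    exact contra h hV X Y Z b' X0 X1 X2 Y0 Y1 Y2 Z0 Z1 Z2 hA hB hC

end Pool.Agent.Helper8Leonard
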