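import Mathlib

set_option autoImplicit false

/-!
Three-dimensional irreducible representations of `sl₂` in equitable form.
-/

namespace Pool.Agent.Helper8Leonard

open Module

attribute [local instance 100] LieRing.ofAssociativeRing

universe u v

variable {K : Type u} [Field K] [IsAlgClosed K] [CharZero K]
variable {V : Type v} [AddCommGroup V] [Module K V]

/-- Explicit form of the three-dimensional irreducible module. -/
lemma exists_basis (hV : finrank K V = 3) (X Y Z : Module.End K V)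
    (hXY : X * Y - Y * X = (2 : K) • X + (2 : K) • Y)
    (hYZ : Y * Z - Z * Y = (2 : K) • Y + (2 : K) • Z)
    (hZX : Z * X - X * Z = (2 : K) • Z + (2 : K) • X)
    (hirr : ∀ W : Submodule K V, (∀ w ∈ W, X w ∈ W) → (∀ w ∈ W, Y w ∈ W) → (∀ w ∈ W, Z w ∈ W) →
      W = ⊥ ∨ W = ⊤) :
    ∃ b : Basis (Fin 3) K V,
      X (b 0) = (-2 : K) • b 0 ∧ X (b 1) = (4 : K) • b 0 ∧ X (b 2) = (4 : K) • b 1 + (2 : K) • b 2 ∧
      Y (b 0) = (-2 : K) • b 0 + (-2 : K) • b 1 ∧ Y (b 1) = (-2 : K) • b 2 ∧
      Y (b 2) = (2 : K) • b 2 ∧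
      Z (b 0) = (2 : K) • b 0 ∧ Z (b 1) = 0 ∧ Z (b 2) = (-2 : K) • b 2 := by
  classical
  have hfin : FiniteDimensional K V := FiniteDimensional.of_finrank_pos (by omega)
  have hnt : Nontrivial V := Module.nontrivial_of_finrank_pos (R := K) (by omega)
  set e : Module.End K V := (2⁻¹ : K) • (X + Z) with he
  set f : Module.End K V := (-(2⁻¹) : K) • (Y + Z) with hf
  have h2 : (2 : K) ≠ 0 := two_ne_zero
  have lie_def : ∀ a b : Module.End K V, ⁅a, b⁆ = a * b - b * a := fun a b => rfl
  have hXZ : X * Z - Z * X = -((2 : K) • Z + (2 : K) • X) := by rw [← hZX]; abel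
  have hZY : Z * Y - Y * Z = -((2 : K) • Y + (2 : K) • Z) := by rw [← hYZ]; abel
  have hef : ⁅e, f⁆ = Z := by
    rw [lie_def, he, hf]
    have : (2⁻¹ : K) • (X + Z) * (-(2⁻¹) : K) • (Y + Z) - (-(2⁻¹) : K) • (Y + Z) * (2⁻¹ : K) • (X + Z)
        = (-(4⁻¹) : K) • ((X * Y - Y * X) + (X * Z - Z * X) + (Z * Y - Y * Z)) := by
      simp only [smul_mul_assoc, mul_smul_comm, smul_smul, mul_add, add_mul, smul_add, smul_sub]
      have h4 : (2⁻¹ : K) * -2⁻¹ = -4⁻¹ := by norm_num
      have h4' : (-2⁻¹ : K) * 2⁻¹ = -4⁻¹ := by norm_num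
      simp only [h4, h4']
      abel
    rw [this, hXY, hXZ, hZY]
    module
  have hhe : ⁅Z, e⁆ = 2 • e := by
    rw [lie_def, he]
    have : Z * (2⁻¹ : K) • (X + Z) - (2⁻¹ : K) • (X + Z) * Z = (2⁻¹ : K) • (Z * X - X * Z) := by
      simp only [smul_mul_assoc, mul_smul_comm, mul_add, add_mul, smul_add, smul_sub]
      abel
    rw [this, hZX]
    module
  have hhf : ⁅Z, f⁆ = -(2 • f) := by
    rw [lie_def, hf]
    have : Z * (-(2⁻¹) : K) • (Y + Z) - (-(2⁻¹) : K) • (Y + Z) * Z =
        (-(2⁻¹) : K) • (Z * Y - Y * Z) := by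
      simp only [smul_mul_assoc, mul_smul_comm, mul_add, add_mul, smul_add, smul_sub]
      abel
    rw [this, hZY]
    module
  have hX : X = (2 : K) • e - Z := by rw [he]; module
  have hY : Y = (-2 : K) • f - Z := by rw [hf]; module
  have hZ0 : Z ≠ 0 := by
    intro h0
    have he0 : e = 0 := by
      have : (2 : K) • e = 0 := by
        have h := hhe
        rw [h0, zero_lie] at h
        rw [ofNat_smul_eq_nsmul K 2 e]
        exact h.symm
      exact (smul_eq_zero.mp this).resolve_left h2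
    have hf0 : f = 0 := by
      have : (2 : K) • f = 0 := by
        have h := hhf
        rw [h0, zero_lie] at h
        rw [ofNat_smul_eq_nsmul K 2 f]
        exact neg_eq_zero.mp h.symm
      exact (smul_eq_zero.mp this).resolve_left h2
    obtain ⟨v, hv⟩ := exists_ne (0 : V)
    rcases hirr (K ∙ v) (fun w _ => by rw [hX, he0, h0]; simp) (fun w _ => by rw [hY, hf0, h0]; simp)
      (fun w _ => by rw [h0]; simp) with h | h
    · exact hv (Submodule.span_singleton_eq_bot.mp h)
    · have h1 : finrank K (K ∙ v) = 1 := finrank_span_singleton hv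
      rw [h, finrank_top, hV] at h1
      omega
  have ht : IsSl2Triple Z e f := ⟨hZ0, hef, hhe, hhf⟩
  obtain ⟨μ, m, hm, P⟩ := ht.exists_hasPrimitiveVectorWith (R := K) (M := V)
  obtain ⟨n, hn⟩ := P.exists_nat
  set ψ : ℕ → V := fun i => ((LieModule.toEnd K (Module.End K V) V f) ^ i) m with hψ
  have hfψ : ∀ i, f (ψ i) = ψ (i + 1) := P.lie_f_pow_toEnd_f
  have hZψ : ∀ i : ℕ, Z (ψ i) = (μ - 2 * i) • ψ i := P.lie_h_pow_toEnd_f
  have heψ : ∀ i : ℕ, e (ψ (i + 1)) = ((i + 1) * (μ - i)) • ψ i := P.lie_e_pow_succ_toEnd_f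
  have heψ0 : e (ψ 0) = 0 := by
    have := P.lie_e
    simpa [hψ] using this
  have hψne : ∀ i ≤ n, ψ i ≠ 0 := fun i hi => P.pow_toEnd_f_ne_zero_of_eq_nat hn hi
  have hψ0 : ψ (n + 1) = 0 := P.pow_toEnd_f_eq_zero_of_eq_nat hn
  -- linear independence
  have hli : LinearIndependent K (fun i : Fin (n + 1) => ψ i) := by
    refine Module.End.eigenvectors_linearIndependent' Z (fun i : Fin (n + 1) => μ - 2 * (i : ℕ)) ?_ _ ?_
    · intro i j hij
      have : (2 : K) * ((i : ℕ) : K) = 2 * ((j : ℕ) : K) := sub_right_injective hij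
      have := mul_left_cancel₀ h2 this
      exact Fin.ext (Nat.cast_injective this)
    · intro i
      refine ⟨?_, hψne i (Nat.lt_succ_iff.mp i.2)⟩
      rw [Module.End.mem_eigenspace_iff]
      exact hZψ i
  have hspan : Submodule.span K (Set.range (fun i : Fin (n + 1) => ψ i)) = ⊤ := by
    set W := Submodule.span K (Set.range (fun i : Fin (n + 1) => ψ i)) with hW
    have hmem : ∀ i, ψ i ∈ W := by
      intro i
      by_cases hi : i < n + 1
      · exact Submodule.subset_span ⟨⟨i, hi⟩, rfl⟩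
      · have : ∀ j, ψ (n + 1 + j) = 0 := by
          intro j
          induction j with
          | zero => exact hψ0
          | succ j ih => rw [← add_assoc, ← hfψ, ih, map_zero]
        obtain ⟨j, rfl⟩ := Nat.exists_eq_add_of_le (not_lt.mp hi)
        rw [this]
        exact W.zero_mem
    have hind : ∀ T : Module.End K V, (∀ i, T (ψ i) ∈ W) → ∀ w ∈ W, T w ∈ W := by
      intro T hT w hw
      rw [hW] at hw
      induction hw using Submodule.span_induction with
      | mem x hx => obtain ⟨i, rfl⟩ := hx; exact hT i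
      | zero => rw [map_zero]; exact W.zero_mem
      | add x y _ _ hx hy => rw [map_add]; exact W.add_mem hx hy
      | smul a x _ hx => rw [map_smul]; exact W.smul_mem a hx
    have hZW : ∀ i, Z (ψ i) ∈ W := fun i => by rw [hZψ]; exact W.smul_mem _ (hmem i)
    have heW : ∀ i, e (ψ i) ∈ W := by
      intro i
      cases i with
      | zero => rw [heψ0]; exact W.zero_mem
      | succ i => rw [heψ]; exact W.smul_mem _ (hmem i)
    have hfW : ∀ i, f (ψ i) ∈ W := fun i => by rw [hfψ]; exact hmem _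
    rcases hirr W (hind X fun i => by
      rw [hX, LinearMap.sub_apply, LinearMap.smul_apply]
      exact W.sub_mem (W.smul_mem _ (heW i)) (hZW i)) (hind Y fun i => by
      rw [hY, LinearMap.sub_apply, LinearMap.smul_apply]
      exact W.sub_mem (W.smul_mem _ (hfW i)) (hZW i)) (hind Z hZW) with h | h
    · exfalso
      have := hmem 0
      rw [h, Submodule.mem_bot] at this
      exact hψne 0 (Nat.zero_le _) this
    · exact h
  have hn2 : n = 2 := by
    have := finrank_eq_card_basis (Basis.mk hli hspan.ge)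
    rw [hV, Fintype.card_fin] at this
    omega
  subst hn2
  refine ⟨Basis.mk hli hspan.ge, ?_⟩
  have hb : ∀ i, (Basis.mk hli hspan.ge) i = ψ i := fun i => by rw [Basis.mk_apply]
  have hμ : μ = 2 := by rw [hn]; norm_num
  have z0 := hZψ 0
  have z1 := hZψ 1
  have z2 := hZψ 2
  have e1 := heψ 0
  have e2 := heψ 1
  have f0 := hfψ 0
  have f1 := hfψ 1
  have f2 := hfψ 2
  rw [hψ0] at f2
  norm_num [hμ] at z0 z1 z2 e1 e2 f0 f1
  have b0 : (Basis.mk hli hspan.ge) 0 = ψ 0 := hb 0
  have b1 : (Basis.mk hli hspan.ge) 1 = ψ 1 := hb 1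
  have b2 : (Basis.mk hli hspan.ge) 2 = ψ 2 := hb 2
  rw [b0, b1, b2]
  refine ⟨?_, ?_, ?_, ?_, ?_, ?_, ?_, ?_, ?_⟩
  · rw [hX, LinearMap.sub_apply, LinearMap.smul_apply, heψ0, z0]; module
  · rw [hX, LinearMap.sub_apply, LinearMap.smul_apply, e1, z1]; module
  · rw [hX, LinearMap.sub_apply, LinearMap.smul_apply, e2, z2]; module
  · rw [hY, LinearMap.sub_apply, LinearMap.smul_apply, f0, z0]; module
  · rw [hY, LinearMap.sub_apply, LinearMap.smul_apply, f1, z1]; module
  · rw [hY, LinearMap.sub_apply, LinearMap.smul_apply, f2, z2]; module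
  · exact z0
  · exact z1
  · rw [z2]; module

end Pool.Agent.Helper8Leonard
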